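import Pool.Agent.GEN.StmtsPT

/-!
# Squad GEN, block PT, row RGB (helper39)
-/

set_option autoImplicit false

namespace Pool.Agent.GEN.H39

open Finset Pool.Agent.Helper6_Mono Pool.Agent.Helper30_Simp Pool.Agent.Helper30_Simp2
  Pool.Agent.GEN Pool.Agent.GEN.PT
open scoped Classical

theorem rgb (rga : RgaStmt) : RgbStmt := by
  intro Λ D A _ _ T Q f blk X h1 h2 h3 Q' hQ' j hj hjQ' g hg
  rcases subsingleton_or_nontrivial A with hA | hA
  · have h0 : g = 0 := Subsingleton.elim _ _
    rw [h0]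
    exact Ideal.zero_mem _
  set N : Set (MvPolynomial Λ A) := {q | ∃ ρ, ρ ∉ T ∧ q = 1 - MvPolynomial.X ρ} with hN
  set y : D → MvPolynomial Λ A := fun i => (∏ ρ ∈ blk i, MvPolynomial.X ρ) - MvPolynomial.C X
    with hy
  set G : Set (MvPolynomial Λ A) := y '' (Q' : Set D) ∪ N with hG
  have hNG : Ideal.span N ≤ Ideal.span G := Ideal.span_mono Set.subset_union_right
  have hyG : ∀ i ∈ Q', y i ∈ Ideal.span G := fun i hi =>
    Ideal.subset_span (Or.inl ⟨i, hi, rfl⟩)
  have hfN : ∀ i ∈ Q, f i - y i ∈ Ideal.span N := fun i hi => h3 i hi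
  have hle : JX f T Q' ≤ Ideal.span G := by
    unfold JX
    rw [sup_le_iff]
    refine ⟨?_, hNG⟩
    rw [Ideal.span_le]
    rintro _ ⟨i, hi, rfl⟩
    have h4 : f i = (f i - y i) + y i := (sub_add_cancel _ _).symm
    rw [SetLike.mem_coe, h4]
    exact Ideal.add_mem _ (hNG (hfN i (hQ' hi))) (hyG i hi)
  have hge : Ideal.span G ≤ JX f T Q' := by
    unfold JX
    rw [Ideal.span_le]
    rintro p (⟨i, hi, rfl⟩ | hp)
    · have h4 : y i = f i - (f i - y i) := (sub_sub_cancel _ _).symm
      rw [SetLike.mem_coe, h4]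
      refine Ideal.sub_mem _ ?_ ?_
      · exact Ideal.mem_sup_left (Ideal.subset_span ⟨i, hi, rfl⟩)
      · exact Ideal.mem_sup_right (hfN i (hQ' hi))
    · exact Ideal.mem_sup_right (Ideal.subset_span hp)
  apply hge
  refine rga Λ A (blk j) X G (h1 j hj).1 ?_ g ?_
  · rintro p hp m hm ρ hρ
    refine MvPolynomial.mem_support_notMem_vars_zero hm ?_
    intro hv
    rcases hp with ⟨i, hi, rfl⟩ | ⟨ρ', hρ', rfl⟩
    · have h5 := MvPolynomial.vars_sub_subset _ hv
      rw [Finset.mem_union, MvPolynomial.vars_C] at h5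
      rcases h5 with h5 | h5
      · have h6 := MvPolynomial.vars_prod _ h5
        rw [Finset.mem_biUnion] at h6
        obtain ⟨ρ2, h7, h8⟩ := h6
        rw [MvPolynomial.vars_X, Finset.mem_singleton] at h8
        subst h8
        have hij : i ≠ j := fun h => hjQ' (h ▸ hi)
        exact Finset.disjoint_left.1 (h2 i (hQ' hi) j hj hij) h7 hρ
      · exact absurd h5 (Finset.notMem_empty _)
    · have h5 := MvPolynomial.vars_sub_subset _ hv
      rw [Finset.mem_union, MvPolynomial.vars_one, MvPolynomial.vars_X] at h5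
      rcases h5 with h5 | h5
      · exact absurd h5 (Finset.notMem_empty _)
      · rw [Finset.mem_singleton] at h5
        rw [← h5] at hρ'
        exact hρ' ((h1 j hj).2 hρ)
  · have h4 : y j * g = f j * g - (f j - y j) * g := by ring
    change y j * g ∈ Ideal.span G
    rw [h4]
    exact Ideal.sub_mem _ (hle hg) (Ideal.mul_mem_right _ _ (hNG (hfN j hj)))

end Pool.Agent.GEN.H39
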