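import Pool.Agent.GEN.StmtsPT

/-!
# Squad GEN, block PT, row ROW (helper39)
-/

set_option autoImplicit false

namespace Pool.Agent.GEN.H39

open Finset Pool.Agent.Helper6_Mono Pool.Agent.Helper30_Simp Pool.Agent.Helper30_Simp2
  Pool.Agent.GEN Pool.Agent.GEN.PT
open scoped Classical

variable {Λ D : Type}

theorem lastT_nil [Fintype Λ] : lastT ([] : List (Finset Λ × Finset D)) = univ := rfl

theorem exists_last [Fintype Λ] (l : List (Finset Λ × Finset D)) (hl : l ≠ []) :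
    ∃ e ∈ l, lastT l = e.1 ∧ (l.Pairwise le2 → ∀ e' ∈ l, e.1 ⊆ e'.1) := by
  refine ⟨l.getLast hl, List.getLast_mem hl, ?_, ?_⟩
  · unfold lastT
    rw [List.getLast?_eq_some_getLast hl]
    rfl
  · intro hp e' he'
    have h1 : l.dropLast ++ [l.getLast hl] = l := List.dropLast_append_getLast hl
    rw [← h1] at he' hp
    rw [List.pairwise_append] at hp
    rcases List.mem_append.1 he' with h2 | h2
    · exact (hp.2.2 e' h2 _ (List.mem_singleton.2 rfl)).1
    · rw [List.mem_singleton.1 h2]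

theorem lastT_eraseIdx [Fintype Λ] (l : List (Finset Λ × Finset D)) (hp : l.Pairwise le2)
    (hl : l ≠ []) (i : ℕ) : lastT l ⊆ lastT (l.eraseIdx i) := by
  by_cases h0 : l.eraseIdx i = []
  · rw [h0, lastT_nil]
    exact subset_univ _
  · obtain ⟨e, he, h1, _⟩ := exists_last _ h0
    obtain ⟨e2, _, h2, h3⟩ := exists_last l hl
    rw [h1, h2]
    exact h3 hp e ((List.eraseIdx_sublist l i).subset he)

theorem row (dlx : DlxStmt) (ctr' : CtrStmt) (pip : PipStmt) : RowStmt := by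
  intro Λ D A _ _ F W hC n w hw1 hw2
  have hcon := hC.con
  choose! a b κ hκ hab hmono using hcon
  obtain ⟨_, pb, pc, pd, pe, _⟩ := pip Λ A F
  obtain ⟨_, _, _, _, dd⟩ := dlx (Finset Λ × Finset D) (MvPolynomial Λ A)
  -- the contractions
  let S : Finset Λ → (List (Finset Λ × Finset D) → MvPolynomial Λ A) →
      List (Finset Λ × Finset D) → MvPolynomial Λ A := fun T₀ x l =>
    ctr (fun e => (T₀, e.2)) (fun e => (T₀, a T₀ e.2)) (fun e => (T₀, b T₀ e.2)) (T₀, κ T₀) x l
  let v : List (Finset Λ × Finset D) → MvPolynomial Λ A := fun l =>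
    ∑ T₀ ∈ F.filter (fun T₀ => T₀ ⊆ lastT l), prj F T₀ (S T₀ w l)
  have hv : ∀ (l : List (Finset Λ × Finset D)) (m : Λ →₀ ℕ), (v l).coeff m =
      if clF F m ∈ F ∧ clF F m ⊆ lastT l then (S (clF F m) w l).coeff m else 0 := by
    intro l m
    change (∑ T₀ ∈ F.filter (fun T₀ => T₀ ⊆ lastT l), prj F T₀ (S T₀ w l)).coeff m = _
    rw [MvPolynomial.coeff_sum]
    have h1 : ∀ T₀ ∈ F.filter (fun T₀ => T₀ ⊆ lastT l), (prj F T₀ (S T₀ w l)).coeff m =
        if clF F m = T₀ then (S T₀ w l).coeff m else 0 := fun T₀ _ => pc T₀ _ m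
    rw [Finset.sum_congr rfl h1, Finset.sum_ite_eq]
    by_cases h2 : clF F m ∈ F ∧ clF F m ⊆ lastT l
    · rw [if_pos h2, if_pos (Finset.mem_filter.2 h2)]
    · rw [if_neg h2, if_neg (fun h => h2 (Finset.mem_filter.1 h))]
  refine ⟨v, ?_, ?_⟩
  · intro l _ _
    ext m
    rw [pb]
    by_cases hm : m.support ⊆ lastT l
    · rw [if_pos hm]
    · rw [if_neg hm, hv l m, if_neg]
      rintro ⟨h1, h2⟩
      exact hm ((pe hC.inter m h1).trans h2)
  · intro l hl hG
    have hne : l ≠ [] := by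
      intro h
      rw [h] at hl
      simp at hl
    obtain ⟨e, he, hlast, hord⟩ := exists_last l hne
    have hTF : lastT l ∈ F := by
      rw [hlast]
      exact (hG.2 e he).1
    ext m
    rw [pb]
    by_cases hm : m.support ⊆ lastT l
    · rw [if_pos hm]
      obtain ⟨h0F, h0T, hm0⟩ := pd hC.inter m (lastT l) hTF hm
      set T₀ := clF F m with hT₀
      let φ : MvPolynomial Λ A →+ A := MvPolynomial.coeffAddMonoidHom m
      have hφ : ∀ p : MvPolynomial Λ A, φ p = p.coeff m := fun p => rfl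
      have h1 : (dl v l).coeff m = (dl (S T₀ w) l).coeff m := by
        rw [← hφ, ← hφ, dd A φ, dd A φ]
        unfold dl
        refine Finset.sum_congr rfl (fun i _ => ?_)
        have h9 : (v (l.eraseIdx i)).coeff m = (S T₀ w (l.eraseIdx i)).coeff m := by
          rw [hv (l.eraseIdx i) m, ← hT₀, if_pos]
          exact ⟨h0F, h0T.trans (lastT_eraseIdx l hG.1 hne i)⟩
        change (-1 : ℤ) ^ i • (v (l.eraseIdx i)).coeff m =
          (-1 : ℤ) ^ i • (S T₀ w (l.eraseIdx i)).coeff m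
        rw [h9]
      obtain ⟨ca, cb, cc⟩ := ctr' (Finset Λ × Finset D) (fun e => (T₀, e.2))
        (fun e => (T₀, a T₀ e.2)) (fun e => (T₀, b T₀ e.2)) (T₀, κ T₀)
      have h2 : dl (S T₀ w) l + S T₀ (dl w) l = w l := ca (MvPolynomial Λ A) w l
      have h3 : (S T₀ (dl w) l).coeff m = 0 := by
        rw [← hφ]
        change φ (ctr (fun e => (T₀, e.2)) (fun e => (T₀, a T₀ e.2)) (fun e => (T₀, b T₀ e.2))
          (T₀, κ T₀) (dl w) l) = 0
        rw [cb (MvPolynomial Λ A) A φ (dl w) l]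
        have hWle : ∀ e : Finset Λ × Finset D, (T₀ ⊆ e.1 ∧ e.1 ∈ F ∧ e.2 ∈ W e.1) →
            e.2 ∈ W T₀ := fun e he => hC.mono e.1 he.2.1 T₀ h0F he.1 he.2.2
        refine cc le2 (fun e => T₀ ⊆ e.1 ∧ e.1 ∈ F ∧ e.2 ∈ W e.1) ?_ ?_ ?_ ?_ ?_ A
          (fun l' => φ (dl w l')) (n + 1) ?_ l hl hG.1 ?_
        · intro e _
          exact ⟨subset_rfl, subset_rfl⟩
        · intro e1 e2 e3 _ _ _ h12 h23
          exact ⟨h23.1.trans h12.1, h12.2.trans h23.2⟩
        · exact ⟨subset_rfl, h0F, hκ T₀ h0F⟩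
        · intro e hPe
          have h4 := hWle e hPe
          obtain ⟨h5, h6, h7, h8, h9⟩ := hab T₀ h0F e.2 h4
          exact ⟨⟨subset_rfl, h0F, h4⟩, ⟨subset_rfl, h0F, h5⟩, ⟨subset_rfl, h0F, h6⟩,
            ⟨hPe.1, subset_rfl⟩, ⟨subset_rfl, h7⟩, ⟨subset_rfl, h8⟩, ⟨subset_rfl, h9⟩⟩
        · intro e1 e2 hP1 hP2 h12
          obtain ⟨h5, h6⟩ := hmono T₀ h0F e1.2 (hWle e1 hP1) e2.2 (hWle e2 hP2) h12.2
          exact ⟨⟨subset_rfl, h12.2⟩, ⟨subset_rfl, h5⟩, ⟨subset_rfl, h6⟩⟩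
        · intro l' hl' hs' hP'
          have hne' : l' ≠ [] := by
            intro h
            rw [h] at hl'
            simp at hl'
          obtain ⟨e1, he1, hlast1, _⟩ := exists_last l' hne'
          have h4 := hw2 l' hl' ⟨hs', fun e he => (hP' e he).2⟩
          have h5 : (res (lastT l') (dl w l')).coeff m = 0 := by
            rw [h4, MvPolynomial.coeff_zero]
          rw [pb, if_pos (hm0.trans (by rw [hlast1]; exact (hP' e1 he1).1))] at h5
          exact h5
        · intro e' he'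
          refine ⟨?_, hG.2 e' he'⟩
          refine h0T.trans ?_
          rw [hlast]
          exact hord hG.1 e' he'
      rw [h1, ← h2, MvPolynomial.coeff_add, h3, add_zero]
    · rw [if_neg hm, ← hw1 l hl hG, pb, if_neg hm]

end Pool.Agent.GEN.H39
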